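import Pool.Agent.K3h2.LT.Stm

/-!
# Project LT, brick UNI (helper51)
-/

set_option autoImplicit false

open Filter Topology

namespace Pool.Agent.K3h51.LT

open Pool.Agent.K3h2.LT

lemma uni_summable (C : ℝ) : Summable (fun k : ℤ => C * (1 / 2 : ℝ) ^ k.natAbs) := by
  refine Summable.mul_left C ?_
  refine Summable.of_nat_of_neg ?_ ?_
  · simpa using (summable_geometric_of_lt_one (r := (1 / 2 : ℝ)) (by norm_num) (by norm_num))
  · simpa using (summable_geometric_of_lt_one (r := (1 / 2 : ℝ)) (by norm_num) (by norm_num))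

lemma uni_summable_pow (C : ℝ) (hC : 0 ≤ C) (p : ℕ) (hp : 1 ≤ p) :
    Summable (fun k : ℤ => (C * (1 / 2 : ℝ) ^ k.natAbs) ^ p) := by
  obtain ⟨q, rfl⟩ : ∃ q, p = q + 1 := ⟨p - 1, by omega⟩
  refine Summable.of_nonneg_of_le (fun k => by positivity) (fun k => ?_)
    ((uni_summable C).mul_left (C ^ q))
  rw [pow_succ]
  have h1 : C * (1 / 2 : ℝ) ^ k.natAbs ≤ C := by
    have : (1 / 2 : ℝ) ^ k.natAbs ≤ 1 := pow_le_one₀ (by norm_num) (by norm_num)
    nlinarith
  have h2 : (C * (1 / 2 : ℝ) ^ k.natAbs) ^ q ≤ C ^ q :=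
    pow_le_pow_left₀ (by positivity) h1 q
  exact mul_le_mul_of_nonneg_right h2 (by positivity)

/-- UNI: pointwise convergence of dominated sequences is uniform -/
theorem t_UNI : S_UNI := by
  intro C f x hf hx
  have hx0 : ∀ k, 0 ≤ x k := fun k => ge_of_tendsto' (hx k) (fun n => (hf n k).1)
  have hx1 : ∀ k, x k ≤ C * (1 / 2) ^ k.natAbs :=
    fun k => le_of_tendsto' (hx k) (fun n => (hf n k).2)
  have hC : 0 ≤ C := by
    have := (hf 0 0).1.trans (hf 0 0).2
    simpa using this
  refine ⟨fun ε hε => ?_, fun p hp => ?_⟩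
  · have hz := (uni_summable C).tendsto_cofinite_zero
    have hev : ∀ᶠ k : ℤ in cofinite, C * (1 / 2 : ℝ) ^ k.natAbs < ε := hz.eventually_lt_const hε
    rw [Filter.eventually_cofinite] at hev
    have h2 : ∀ᶠ n in atTop, ∀ k ∈ hev.toFinset, |f n k - x k| ≤ ε := by
      rw [Filter.eventually_all_finset]
      intro k _
      have h3 := (tendsto_iff_norm_sub_tendsto_zero.1 (hx k)).eventually_lt_const hε
      filter_upwards [h3] with n hn
      rw [Real.norm_eq_abs] at hn
      exact hn.le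
    obtain ⟨N, hN⟩ := Filter.eventually_atTop.1 h2
    refine ⟨N, fun n hn k => ?_⟩
    by_cases hk : k ∈ hev.toFinset
    · exact hN n hn k hk
    · have hk' : C * (1 / 2 : ℝ) ^ k.natAbs < ε := by
        simpa using hk
      rw [abs_le]
      constructor
      · linarith [(hf n k).1, hx1 k]
      · linarith [(hf n k).2, hx0 k]
  · refine ⟨?_, ?_⟩
    · exact Summable.of_nonneg_of_le (fun k => pow_nonneg (hx0 k) p)
        (fun k => pow_le_pow_left₀ (hx0 k) (hx1 k) p) (uni_summable_pow C hC p hp)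
    · refine tendsto_tsum_of_dominated_convergence (uni_summable_pow C hC p hp)
        (fun k => (hx k).pow p) ?_
      refine Filter.Eventually.of_forall (fun n k => ?_)
      rw [Real.norm_eq_abs, abs_of_nonneg (pow_nonneg (hf n k).1 p)]
      exact pow_le_pow_left₀ (hf n k).1 (hf n k).2 p

end Pool.Agent.K3h51.LT
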